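import Pool.Agent.L7h15.SG.Pu

/-!
# Project SG, job H2, part 2: an element `α` of `K` with `α c(α) = p ^ j`, `ι₀ α` a unit, which is not a
`p`-th power
-/

set_option autoImplicit false
set_option linter.unusedSectionVars false

namespace Pool.Agent.L7h15.SG

open Pool.Agent.L7h48.SG
open Pool.Agent.Y715.Gi (QB KK GK)
open Pool.Agent.Y715.Nr Pool.Agent.W237.RK
open Pool.Agent.Z384 (II DD DDs)
open NumberField

section nrm

variable {p : ℕ} [hp : Fact p.Prime]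

lemma norm_int_le {x : PadicAlgCl p} (h : IsIntegral ℤ x) : ‖x‖ ≤ 1 := by
  let v : Valuation (PadicAlgCl p) NNReal := NormedField.valuation
  have h2 : IsIntegral v.integer x := h.tower_top
  have h3 := (Valuation.integer.integers v).mem_of_integral h2
  rw [Valuation.mem_integer_iff] at h3
  exact_mod_cast h3

lemma norm_nat_eq {n : ℕ} (h : ¬ p ∣ n) : ‖(n : PadicAlgCl p)‖ = 1 := by
  have h1 : ‖((n : ℚ_[p]) : PadicAlgCl p)‖ = ‖(n : ℚ_[p])‖ := PadicAlgCl.norm_extends p _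
  have h2 : ((n : ℚ_[p]) : PadicAlgCl p) = (n : PadicAlgCl p) := by
    exact map_natCast (algebraMap ℚ_[p] (PadicAlgCl p)) _
  rw [h2] at h1
  rw [h1]
  have h3 : ‖((n : ℤ) : ℤ_[p])‖ = 1 := by
    by_contra hne
    have h4 := lt_of_le_of_ne (PadicInt.norm_le_one ((n : ℤ) : ℤ_[p])) hne
    rw [PadicInt.norm_int_lt_one_iff_dvd] at h4
    exact h (by exact_mod_cast h4)
  have h4 : ‖(((n : ℤ) : ℤ_[p]) : ℚ_[p])‖ = 1 := h3
  simpa using h4

lemma norm_p_lt : ‖(p : PadicAlgCl p)‖ < 1 := by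
  have h1 : ‖((p : ℚ_[p]) : PadicAlgCl p)‖ = ‖(p : ℚ_[p])‖ := PadicAlgCl.norm_extends p _
  have h2 : ((p : ℚ_[p]) : PadicAlgCl p) = (p : PadicAlgCl p) := by
    exact map_natCast (algebraMap ℚ_[p] (PadicAlgCl p)) _
  rw [h2] at h1
  rw [h1]
  exact Padic.norm_p_lt_one

/-- two elements, one of norm one, near each other -/
lemma norm_near {x y : PadicAlgCl p} (hx : ‖x‖ = 1) (h : ‖x - y‖ < 1) : ‖y‖ = 1 := by
  have h1 : ‖y‖ = ‖x‖ := by
    by_contra hne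
    have hne' : ‖x‖ ≠ ‖-y‖ := by rw [norm_neg]; exact Ne.symm hne
    have h2 := IsUltrametricDist.norm_add_eq_max_of_norm_ne_norm hne'
    rw [← sub_eq_add_neg] at h2
    rw [h2] at h
    have h3 := lt_of_le_of_lt (le_max_left _ _) h
    rw [hx] at h3
    exact lt_irrefl _ h3
  rw [h1, hx]

end nrm

section al

variable {p : ℕ} [hp : Fact p.Prime] {s : QB} {d : ℕ}

lemma integral_map (c : QB ≃ₐ[ℚ] QB) {x : QB} (hx : IsIntegral ℤ x) : IsIntegral ℤ (c x) :=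
  hx.map (c : QB →+* QB).toIntAlgHom

lemma integral_iota (ι : QB →ₐ[ℚ] PadicAlgCl p) {x : QB} (hx : IsIntegral ℤ x) :
    IsIntegral ℤ (ι x) := hx.map (ι : QB →+* PadicAlgCl p).toIntAlgHom

lemma c_mem {c : QB ≃ₐ[ℚ] QB} (hc : IsConj c) (hs : s ^ 2 = -(d : QB)) (hd : d ≠ 0) {x : QB}
    (hx : x ∈ KK s) : c x ∈ KK s := by
  obtain ⟨u, v, rfl⟩ := Pool.Agent.Z384.KK_ex hs hx
  have h1 : c ((u : QB) + v * s) = u - v * s := by
    rw [map_add, map_mul, map_ratCast, map_ratCast, conj_s hc hs hd]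
    ring
  rw [h1]
  have h2 : s ∈ KK s := IntermediateField.mem_adjoin_simple_self ℚ s
  exact sub_mem (SubfieldClass.ratCast_mem _ u) (mul_mem (SubfieldClass.ratCast_mem _ v) h2)

/-- an element `t` near zero at `ι₀` whose conjugate is a unit -/
theorem exists_t (hS : Spl p s d) (ι₀ : QB →ₐ[ℚ] PadicAlgCl p) {c : QB ≃ₐ[ℚ] QB} (hc : IsConj c) :
    ∃ t ∈ KK s, IsIntegral ℤ t ∧ ‖ι₀ t‖ < 1 ∧ ‖ι₀ (c t)‖ = 1 := by
  have hpp := hp.out
  have hp0 : (p : QB) ≠ 0 := by exact_mod_cast hpp.ne_zero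
  have hd0 : d ≠ 0 := hS.pos.ne'
  obtain ⟨r, hr⟩ := hS.loc
  -- `r` is integral
  have hr1 : ‖r‖ ≤ 1 := by
    have h1 : ‖r‖ ^ 2 ≤ 1 := by
      rw [← norm_pow, hr, norm_neg]
      have := Padic.norm_int_le_one (p := p) (d : ℤ)
      simpa using this
    nlinarith [norm_nonneg r]
  let R : ℤ_[p] := ⟨r, hr1⟩
  have hR : R ^ 2 = -(d : ℤ_[p]) := by
    apply Subtype.ext
    push_cast
    exact hr
  have hR0 : R ≠ 0 := by
    intro h
    rw [h, zero_pow two_ne_zero, eq_comm, neg_eq_zero] at hR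
    exact hd0 (by exact_mod_cast hR)
  have hR2 := PadicInt.unitCoeff_spec hR0
  set u : ℤ_[p]ˣ := PadicInt.unitCoeff hR0 with hu
  set i := R.valuation with hi
  have h1 : ((p : ℤ_[p]) ^ (2 * i)) ∣ ((d : ℤ) : ℤ_[p]) := by
    refine ⟨-(u : ℤ_[p]) ^ 2, ?_⟩
    have : ((d : ℤ) : ℤ_[p]) = -(R ^ 2) := by rw [hR]; push_cast; ring
    rw [this, hR2]
    ring
  have h2 : p ^ (2 * i) ∣ d := by
    have := (PadicInt.pow_p_dvd_int_iff (p := p) (2 * i) (d : ℤ)).1 h1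
    exact_mod_cast this
  obtain ⟨d', hd'⟩ := h2
  -- the element `s'`
  set s' : QB := s / p ^ i with hs'
  have hs'2 : s' ^ 2 = -(d' : QB) := by
    rw [hs', div_pow, hS.sq, hd', div_eq_iff (by positivity)]
    push_cast
    ring
  have hs'K : s' ∈ KK s := div_mem (IntermediateField.mem_adjoin_simple_self ℚ s)
    (pow_mem (natCast_mem _ p) i)
  have hs'i : IsIntegral ℤ s' := by
    refine IsIntegral.of_pow (n := 2) (by norm_num) ?_
    rw [hs'2]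
    exact (isIntegral_natCast (R := ℤ) d').neg
  have hcs : c s' = -s' := by
    rw [hs', map_div₀, map_pow, map_natCast, conj_s hc hS.sq hd0, neg_div]
  have hu2 : ((u : ℤ_[p]) : ℚ_[p]) ^ 2 = -(d' : ℚ_[p]) := by
    have h3 : (u : ℤ_[p]) ^ 2 * (p : ℤ_[p]) ^ (2 * i) = -(d' : ℤ_[p]) * (p : ℤ_[p]) ^ (2 * i) := by
      have h4 : R ^ 2 = (u : ℤ_[p]) ^ 2 * (p : ℤ_[p]) ^ (2 * i) := by
        rw [hR2]
        ring
      rw [← h4, hR, hd']
      push_cast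
      ring
    have hp0' : (p : ℤ_[p]) ^ (2 * i) ≠ 0 := pow_ne_zero _ (by exact_mod_cast hpp.ne_zero)
    have h5 := mul_right_cancel₀ hp0' h3
    have h6 := congrArg (fun x : ℤ_[p] => (x : ℚ_[p])) h5
    push_cast at h6
    exact h6
  obtain ⟨w, hw1, hw⟩ : ∃ w : ℤ_[p]ˣ, True ∧ ι₀ s' = algebraMap ℚ_[p] (PadicAlgCl p) (w : ℤ_[p]) := by
    have h3 : (ι₀ s') ^ 2 = (algebraMap ℚ_[p] (PadicAlgCl p) (u : ℤ_[p])) ^ 2 := by
      rw [← map_pow, ← map_pow, hs'2, hu2, map_neg, map_neg, map_natCast, map_natCast]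
    rcases sq_eq_sq_iff_eq_or_eq_neg.1 h3 with h4 | h4
    · exact ⟨u, trivial, h4⟩
    · refine ⟨-u, trivial, ?_⟩
      rw [h4, Units.val_neg, ← map_neg]
      rfl
  have hwn : ‖algebraMap ℚ_[p] (PadicAlgCl p) ((w : ℤ_[p]) : ℚ_[p])‖ = 1 := by
    have h3 : ‖algebraMap ℚ_[p] (PadicAlgCl p) ((w : ℤ_[p]) : ℚ_[p])‖ = ‖((w : ℤ_[p]) : ℚ_[p])‖ :=
      PadicAlgCl.norm_extends p ((w : ℤ_[p]) : ℚ_[p])
    rw [h3]
    exact PadicInt.norm_units w
  -- the natural number near `w`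
  set m : ℕ := PadicInt.zmodRepr (w : ℤ_[p]) with hm
  have hm1 : ‖algebraMap ℚ_[p] (PadicAlgCl p) ((w : ℤ_[p]) : ℚ_[p]) - (m : PadicAlgCl p)‖ < 1 := by
    have h3 := (PadicInt.zmodRepr_spec (w : ℤ_[p])).2
    rw [IsLocalRing.mem_maximalIdeal, PadicInt.mem_nonunits] at h3
    have h4 : ‖algebraMap ℚ_[p] (PadicAlgCl p) ((((w : ℤ_[p]) - (m : ℤ_[p]) : ℤ_[p])) : ℚ_[p])‖ =
      ‖((((w : ℤ_[p]) - (m : ℤ_[p]) : ℤ_[p])) : ℚ_[p])‖ :=
      PadicAlgCl.norm_extends p ((((w : ℤ_[p]) - (m : ℤ_[p]) : ℤ_[p])) : ℚ_[p])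
    have h5 : algebraMap ℚ_[p] (PadicAlgCl p) ((((w : ℤ_[p]) - (m : ℤ_[p]) : ℤ_[p])) : ℚ_[p]) =
        algebraMap ℚ_[p] (PadicAlgCl p) ((w : ℤ_[p]) : ℚ_[p]) - (m : PadicAlgCl p) := by
      rw [PadicInt.coe_sub, PadicInt.coe_natCast, map_sub, map_natCast]
    rw [← h5, h4]
    exact h3
  refine ⟨s' - m, sub_mem hs'K (natCast_mem _ m), hs'i.sub (isIntegral_natCast (R := ℤ) m), ?_, ?_⟩
  · rw [map_sub, map_natCast, hw]
    exact hm1
  · have h2n : ‖((2 : ℕ) : PadicAlgCl p)‖ = 1 := by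
      refine norm_nat_eq ?_
      intro h
      exact hS.odd ((Nat.prime_dvd_prime_iff_eq hpp Nat.prime_two).1 h)
    refine norm_near (x := -((2 : ℕ) : PadicAlgCl p) * algebraMap ℚ_[p] (PadicAlgCl p) ((w : ℤ_[p]) : ℚ_[p])) ?_ ?_
    · rw [norm_mul, norm_neg, h2n, hwn, one_mul]
    · rw [map_sub, map_natCast, hcs, map_sub, map_neg, map_natCast, hw]
      have : -((2 : ℕ) : PadicAlgCl p) * algebraMap ℚ_[p] (PadicAlgCl p) ((w : ℤ_[p]) : ℚ_[p]) -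
          (-algebraMap ℚ_[p] (PadicAlgCl p) ((w : ℤ_[p]) : ℚ_[p]) - (m : PadicAlgCl p)) =
          -(algebraMap ℚ_[p] (PadicAlgCl p) ((w : ℤ_[p]) : ℚ_[p]) - (m : PadicAlgCl p)) := by
        push_cast
        ring
      rw [this, norm_neg]
      exact hm1

instance (s : QB) : FiniteDimensional ℚ (KK s) :=
  IntermediateField.adjoin.finiteDimensional (Algebra.IsAlgebraic.isAlgebraic s).isIntegral

instance (s : QB) : NumberField (KK s) where
  to_charZero := inferInstance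
  to_finiteDimensional := inferInstance

/-- the embedding of the ring of integers -/
noncomputable def em (s : QB) : 𝓞 (KK s) →+* QB :=
  (algebraMap (KK s) QB).comp (algebraMap (𝓞 (KK s)) (KK s))

lemma em_int (x : 𝓞 (KK s)) : IsIntegral ℤ (em s x) := by
  have h1 : IsIntegral ℤ (x : KK s) := RingOfIntegers.isIntegral_coe x
  exact h1.map (algebraMap (KK s) QB).toIntAlgHom

lemma em_mem (x : 𝓞 (KK s)) : em s x ∈ KK s := (algebraMap (𝓞 (KK s)) (KK s) x).2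

lemma em_surj {t : QB} (ht : t ∈ KK s) (hi : IsIntegral ℤ t) : ∃ x : 𝓞 (KK s), em s x = t := by
  have h1 : IsIntegral ℤ (⟨t, ht⟩ : KK s) :=
    (isIntegral_algebraMap_iff (A := KK s) (B := QB) (algebraMap (KK s) QB).injective).1 hi
  exact ⟨⟨⟨t, ht⟩, h1⟩, rfl⟩

/-- the prime below `ι₀` -/
noncomputable def pid (s : QB) (ι₀ : QB →ₐ[ℚ] PadicAlgCl p) : Ideal (𝓞 (KK s)) where
  carrier := {x | ‖ι₀ (em s x)‖ < 1}
  zero_mem' := by
    change ‖ι₀ (em s 0)‖ < 1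
    rw [map_zero, map_zero, norm_zero]
    exact one_pos
  add_mem' := by
    intro a b ha hb
    change ‖ι₀ (em s (a + b))‖ < 1
    rw [map_add, map_add]
    exact (IsUltrametricDist.norm_add_le_max _ _).trans_lt (max_lt ha hb)
  smul_mem' := by
    intro a b hb
    change ‖ι₀ (em s (a * b))‖ < 1
    have hb' : ‖ι₀ (em s b)‖ < 1 := hb
    rw [map_mul, map_mul, norm_mul]
    have ha : ‖ι₀ (em s a)‖ ≤ 1 := norm_int_le (integral_iota ι₀ (em_int a))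
    calc ‖ι₀ (em s a)‖ * ‖ι₀ (em s b)‖ ≤ 1 * ‖ι₀ (em s b)‖ :=
          mul_le_mul_of_nonneg_right ha (norm_nonneg _)
      _ < 1 := by rwa [one_mul]

lemma mem_pid (ι₀ : QB →ₐ[ℚ] PadicAlgCl p) (x : 𝓞 (KK s)) :
    x ∈ pid s ι₀ ↔ ‖ι₀ (em s x)‖ < 1 := Iff.rfl

/-- every nonzero ideal has a principal power -/
lemma exists_pow_principal (I : Ideal (𝓞 (KK s))) (hI : I ≠ ⊥) :
    ∃ h : ℕ, 1 ≤ h ∧ ∃ a : 𝓞 (KK s), I ^ h = Ideal.span {a} := by
  have hI' : I ∈ nonZeroDivisors (Ideal (𝓞 (KK s))) := mem_nonZeroDivisors_of_ne_zero hI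
  refine ⟨Fintype.card (ClassGroup (𝓞 (KK s))), Fintype.card_pos, ?_⟩
  have h1 : ClassGroup.mk0 ((⟨I, hI'⟩ : nonZeroDivisors (Ideal (𝓞 (KK s)))) ^
      Fintype.card (ClassGroup (𝓞 (KK s)))) = 1 := by
    rw [map_pow, pow_card_eq_one]
  rw [ClassGroup.mk0_eq_one_iff] at h1
  obtain ⟨a, ha⟩ := h1
  refine ⟨a, ?_⟩
  have h2 : (((⟨I, hI'⟩ : nonZeroDivisors (Ideal (𝓞 (KK s)))) ^
      Fintype.card (ClassGroup (𝓞 (KK s))) : nonZeroDivisors (Ideal (𝓞 (KK s)))) :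
      Ideal (𝓞 (KK s))) = I ^ Fintype.card (ClassGroup (𝓞 (KK s))) := rfl
  rw [← h2, ha]

theorem exists_alpha0 (hS : Spl p s d) (ι₀ : QB →ₐ[ℚ] PadicAlgCl p) {c : QB ≃ₐ[ℚ] QB}
    (hc : IsConj c) : ∃ j : ℕ, 1 ≤ j ∧ ∃ α ∈ KK s, IsIntegral ℤ α ∧ α * c α = (p : QB) ^ j ∧
      ‖ι₀ α‖ = 1 := by
  have hpp := hp.out
  have hp0 : (p : QB) ≠ 0 := by exact_mod_cast hpp.ne_zero
  have hd0 : d ≠ 0 := hS.pos.ne'
  obtain ⟨t, htK, hti, ht1, ht2⟩ := exists_t hS ι₀ hc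
  have hpm : ((p : ℕ) : 𝓞 (KK s)) ∈ pid s ι₀ := by
    rw [mem_pid, map_natCast, map_natCast]
    exact norm_p_lt
  have hI : pid s ι₀ ≠ ⊥ := by
    intro h
    rw [h, Ideal.mem_bot] at hpm
    exact hpp.ne_zero (by exact_mod_cast hpm)
  obtain ⟨h, hh, a, ha⟩ := exists_pow_principal (pid s ι₀) hI
  set A : QB := em s a with hA
  have hAi : IsIntegral ℤ A := em_int a
  have hAK : A ∈ KK s := em_mem a
  -- `A` divides `p ^ h`
  obtain ⟨y, hy⟩ : ∃ y : 𝓞 (KK s), ((p : ℕ) : 𝓞 (KK s)) ^ h = a * y := by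
    have h1 := Ideal.pow_mem_pow hpm h
    rw [ha, Ideal.mem_span_singleton] at h1
    exact h1
  set Y : QB := em s y with hY
  have hYi : IsIntegral ℤ Y := em_int y
  have hYK : Y ∈ KK s := em_mem y
  have hAY : (p : QB) ^ h = A * Y := by
    have h1 := congrArg (em s) hy
    rwa [map_pow, map_mul, map_natCast] at h1
  have hA0 : A ≠ 0 := by
    intro h0
    rw [h0, zero_mul] at hAY
    exact pow_ne_zero _ hp0 hAY
  have hY0 : Y ≠ 0 := by
    intro h0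
    rw [h0, mul_zero] at hAY
    exact pow_ne_zero _ hp0 hAY
  -- `A` is in the prime
  have hAn : ‖ι₀ A‖ < 1 := by
    have h1 : a ∈ pid s ι₀ := by
      have h2 : a ∈ pid s ι₀ ^ h := by
        rw [ha]
        exact Ideal.mem_span_singleton_self a
      exact Ideal.pow_le_self (by omega) h2
    exact h1
  -- its conjugate is a unit
  have hcAn : ‖ι₀ (c A)‖ = 1 := by
    obtain ⟨T, hTt⟩ := em_surj htK hti
    have hT : T ∈ pid s ι₀ := by
      rw [mem_pid, hTt]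
      exact ht1
    have h1 := Ideal.pow_mem_pow hT h
    rw [ha, Ideal.mem_span_singleton] at h1
    obtain ⟨w, hw⟩ := h1
    have h2 : t ^ h = A * em s w := by
      have h3 := congrArg (em s) hw
      rwa [map_pow, map_mul, hTt] at h3
    have h3 : ‖ι₀ (c (em s w))‖ ≤ 1 :=
      norm_int_le (integral_iota ι₀ (integral_map c (em_int w)))
    have h4 : ‖ι₀ (c A)‖ ≤ 1 := norm_int_le (integral_iota ι₀ (integral_map c hAi))
    have h5 : ‖ι₀ (c A)‖ * ‖ι₀ (c (em s w))‖ = 1 := by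
      rw [← norm_mul, ← map_mul, ← map_mul, ← h2, map_pow, map_pow, norm_pow, ht2, one_pow]
    have h6 : 0 ≤ ‖ι₀ (c A)‖ := norm_nonneg _
    nlinarith [norm_nonneg (ι₀ (c (em s w)))]
  -- the norms
  obtain ⟨n, hn, hnA⟩ := norm_nat hc hS.sq hd0 hAK hAi hA0
  obtain ⟨n', hn', hnY⟩ := norm_nat hc hS.sq hd0 hYK hYi hY0
  have hnn : n * n' = p ^ (2 * h) := by
    have h1 : ((n * n' : ℕ) : QB) = ((p ^ (2 * h) : ℕ) : QB) := by
      push_cast
      rw [← hnA, ← hnY]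
      have h2 : c ((p : QB) ^ h) = c A * c Y := by rw [hAY, map_mul]
      rw [map_pow, map_natCast] at h2
      calc A * c A * (Y * c Y) = (A * Y) * (c A * c Y) := by ring
        _ = (p : QB) ^ h * (p : QB) ^ h := by rw [← hAY, ← h2]
        _ = (p : QB) ^ (2 * h) := by ring
    exact_mod_cast h1
  obtain ⟨j, -, hj⟩ := (Nat.dvd_prime_pow hpp).1 (Dvd.intro _ hnn)
  refine ⟨j, ?_, c A, c_mem hc hS.sq hd0 hAK, integral_map c hAi, ?_, hcAn⟩
  · by_contra hj0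
    have hj0' : j = 0 := by omega
    rw [hj0', pow_zero] at hj
    rw [hj, Nat.cast_one] at hnA
    have h1 : ‖ι₀ A‖ * ‖ι₀ (c A)‖ = 1 := by
      rw [← norm_mul, ← map_mul, hnA, map_one, norm_one]
    rw [hcAn, mul_one] at h1
    exact absurd h1 hAn.ne
  · rw [conj_conj hc, mul_comm, hnA, hj]
    push_cast
    rfl

theorem exists_alpha (hS : Spl p s d) (ι₀ : QB →ₐ[ℚ] PadicAlgCl p) {c : QB ≃ₐ[ℚ] QB}
    (hc : IsConj c) : ∃ (j : ℕ) (α : QB), α ∈ KK s ∧ IsIntegral ℤ α ∧ α * c α = (p : QB) ^ j ∧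
      ‖ι₀ α‖ = 1 ∧ ∀ y ∈ KK s, y ^ p ≠ α := by
  classical
  have hpp := hp.out
  have hp0 : (p : QB) ≠ 0 := by exact_mod_cast hpp.ne_zero
  have hd0 : d ≠ 0 := hS.pos.ne'
  have hex := exists_alpha0 hS ι₀ hc
  set j := Nat.find hex with hj
  obtain ⟨hj1, α, hαK, hαi, hαc, hαn⟩ := Nat.find_spec hex
  refine ⟨j, α, hαK, hαi, hαc, hαn, ?_⟩
  intro y hyK hy
  have hyi : IsIntegral ℤ y := IsIntegral.of_pow hpp.pos (by rw [hy]; exact hαi)
  have hy0 : y ≠ 0 := by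
    rintro rfl
    rw [zero_pow hpp.ne_zero] at hy
    rw [← hy, map_zero, norm_zero] at hαn
    exact zero_ne_one hαn
  obtain ⟨n, hn, hny⟩ := norm_nat hc hS.sq hd0 hyK hyi hy0
  have hnp : n ^ p = p ^ j := by
    have h1 : ((n ^ p : ℕ) : QB) = ((p ^ j : ℕ) : QB) := by
      push_cast
      rw [← hny, mul_pow, ← map_pow, hy, hαc]
    exact_mod_cast h1
  obtain ⟨i, -, hi⟩ := (Nat.dvd_prime_pow hpp).1 (Dvd.intro_left (n ^ (p - 1))
    (show n ^ (p - 1) * n = p ^ j by rw [← pow_succ, Nat.sub_add_cancel hpp.one_le, hnp]))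
  have hij : i * p = j := by
    rw [hi, ← pow_mul] at hnp
    exact Nat.pow_right_injective hpp.two_le hnp
  have hi1 : 1 ≤ i := by
    by_contra h0
    have : i = 0 := by omega
    rw [this, zero_mul] at hij
    omega
  have hlt : i < j := by
    rw [← hij]
    exact lt_mul_of_one_lt_right (by omega) hpp.one_lt
  have hyn : ‖ι₀ y‖ = 1 := by
    have h1 : ‖ι₀ y‖ ^ p = 1 := by rw [← norm_pow, ← map_pow, hy, hαn]
    exact (pow_eq_one_iff_of_nonneg (norm_nonneg _) hpp.ne_zero).1 h1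
  refine Nat.find_min hex hlt ⟨hi1, y, hyK, hyi, ?_, hyn⟩
  rw [hny, hi]
  push_cast
  rfl

end al

end Pool.Agent.L7h15.SG
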