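import Mathlib

/-!
# Project SG, job H2, part 3: `p`-th powers in `ℤ_p`
-/

set_option autoImplicit false
set_option linter.unusedSectionVars false

namespace Pool.Agent.L7h15.SG

section

variable {R : Type*} [CommRing R]

lemma bin2 (x : R) (n : ℕ) : ∃ k, (1 + x) ^ n = 1 + n * x + x ^ 2 * k := by
  induction n with
  | zero => exact ⟨0, by simp⟩
  | succ n ih =>
    obtain ⟨k, hk⟩ := ih
    refine ⟨n + k + k * x, ?_⟩
    rw [pow_succ, hk]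
    push_cast
    ring

lemma bin3 (x : R) (n : ℕ) : ∃ k, (1 + x) ^ n = 1 + n * x + (n.choose 2 : ℕ) * x ^ 2 + x ^ 3 * k := by
  induction n with
  | zero => exact ⟨0, by simp⟩
  | succ n ih =>
    obtain ⟨k, hk⟩ := ih
    refine ⟨(n.choose 2 : ℕ) + k + k * x, ?_⟩
    rw [pow_succ, hk]
    have : (n + 1).choose 2 = n + n.choose 2 := by
      rw [Nat.choose_succ_succ' n 1, Nat.choose_one_right]
    rw [this]
    push_cast
    ring

end

variable {p : ℕ} [hp : Fact p.Prime]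

lemma np_lt : ‖(p : ℤ_[p])‖ < 1 := by
  have h := Padic.norm_p_lt_one (p := p)
  have h2 : ‖((p : ℤ_[p]) : ℚ_[p])‖ < 1 := by rwa [PadicInt.coe_natCast]
  exact h2

lemma norm_one_add (n : ℤ_[p]) : ‖(1 : ℚ_[p]) + (p : ℚ_[p]) ^ 2 * (n : ℚ_[p])‖ = 1 := by
  have h1 : ‖(p : ℚ_[p]) ^ 2 * (n : ℚ_[p])‖ < 1 := by
    rw [norm_mul, norm_pow]
    have h2 : ‖(p : ℚ_[p])‖ < 1 := Padic.norm_p_lt_one
    have h3 : ‖(n : ℚ_[p])‖ ≤ 1 := n.2
    have h4 : ‖(p : ℚ_[p])‖ ^ 2 < 1 := pow_lt_one₀ (norm_nonneg _) h2 two_ne_zero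
    calc ‖(p : ℚ_[p])‖ ^ 2 * ‖(n : ℚ_[p])‖ ≤ ‖(p : ℚ_[p])‖ ^ 2 * 1 :=
          mul_le_mul_of_nonneg_left h3 (by positivity)
      _ < 1 := by rwa [mul_one]
  rw [IsUltrametricDist.norm_add_eq_max_of_norm_ne_norm (by rw [norm_one]; exact h1.ne'), norm_one]
  exact max_eq_left h1.le

lemma unit_eq {y : ℚ_[p]} (hy : ‖y‖ = 1) {k : ℤ} {n : ℤ_[p]}
    (h : y = (p : ℚ_[p]) ^ k * (1 + (p : ℚ_[p]) ^ 2 * (n : ℚ_[p]))) :
    y = 1 + (p : ℚ_[p]) ^ 2 * (n : ℚ_[p]) := by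
  have h1 : ‖(p : ℚ_[p]) ^ k‖ = 1 := by
    have h2 := congrArg norm h
    rw [norm_mul, norm_one_add, mul_one, hy] at h2
    exact h2.symm
  have h2 : k = 0 := by
    rw [Padic.norm_p_zpow] at h1
    have hp1 : (1 : ℝ) < p := by exact_mod_cast hp.out.one_lt
    have h3 : (p : ℝ) ^ (-k) = (p : ℝ) ^ (0 : ℤ) := by rw [h1, zpow_zero]
    have h4 := zpow_right_injective₀ (by linarith) hp1.ne' h3
    omega
  rw [h, h2, zpow_zero, one_mul]

lemma dvd_of_bin {b' : ℤ_[p]} {M : ℕ} (hM : ¬ p ∣ M) (h : (p : ℤ_[p]) ^ 2 ∣ (1 + (p : ℤ_[p]) * b') ^ M - 1) :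
    (p : ℤ_[p]) ∣ b' := by
  have hp0 : (p : ℤ_[p]) ≠ 0 := by exact_mod_cast hp.out.ne_zero
  have hpp : Prime (p : ℤ_[p]) := PadicInt.prime_p
  obtain ⟨k, hk⟩ := bin2 ((p : ℤ_[p]) * b') M
  obtain ⟨e, he⟩ := h
  have h1 : (p : ℤ_[p]) * ((M : ℤ_[p]) * b') = (p : ℤ_[p]) * (p * (e - b' ^ 2 * k)) := by
    rw [hk] at he
    linear_combination he
  have h2 := mul_left_cancel₀ hp0 h1
  have h3 : (p : ℤ_[p]) ∣ (M : ℤ_[p]) * b' := ⟨_, h2⟩
  rcases hpp.dvd_or_dvd h3 with h4 | h4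
  · exfalso
    apply hM
    have h5 : ((p : ℤ_[p])) ^ 1 ∣ ((M : ℤ) : ℤ_[p]) := by
      rw [pow_one]
      exact_mod_cast h4
    rw [PadicInt.pow_p_dvd_int_iff, pow_one] at h5
    exact_mod_cast h5
  · exact h4

/-- a unit of `ℤ_p` which has a power of exponent prime to `p` congruent to one modulo `p²` is a `p`-th
power -/
theorem pth_power (hp2 : p ≠ 2) {a : ℤ_[p]} (ha : ‖a‖ = 1) {M : ℕ} (hM : ¬ p ∣ M) {n : ℤ_[p]}
    (h : a ^ M = 1 + (p : ℤ_[p]) ^ 2 * n) : ∃ w : ℚ_[p], w ^ p = a := by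
  have hpp := hp.out
  have hp0 : (p : ℤ_[p]) ≠ 0 := by exact_mod_cast hpp.ne_zero
  have ha0 : a ≠ 0 := by
    rintro rfl
    rw [norm_zero] at ha
    exact zero_ne_one ha
  set b := a ^ (p - 1) with hb
  have hbn : ‖b‖ = 1 := by rw [hb, norm_pow, ha, one_pow]
  -- `b ≡ 1` modulo `p`
  obtain ⟨b', hb'⟩ : (p : ℤ_[p]) ∣ b - 1 := by
    have h1 : PadicInt.toZMod a ≠ 0 := by
      intro h0
      rw [← RingHom.mem_ker, PadicInt.ker_toZMod, IsLocalRing.mem_maximalIdeal,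
        PadicInt.mem_nonunits, ha] at h0
      exact lt_irrefl _ h0
    have h2 : PadicInt.toZMod (b - 1) = 0 := by
      rw [map_sub, hb, map_pow, ZMod.pow_card_sub_one_eq_one h1, map_one, sub_self]
    rw [← RingHom.mem_ker, PadicInt.ker_toZMod, PadicInt.maximalIdeal_eq_span_p,
      Ideal.mem_span_singleton] at h2
    exact h2
  have hb1 : b = 1 + p * b' := by linear_combination hb'
  -- `b ≡ 1` modulo `p²`
  obtain ⟨b'', hb''⟩ : (p : ℤ_[p]) ∣ b' := by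
    refine dvd_of_bin hM ?_
    rw [← hb1, hb, ← pow_mul, mul_comm, pow_mul, h]
    obtain ⟨k, hk⟩ := bin2 ((p : ℤ_[p]) ^ 2 * n) (p - 1)
    rw [hk]
    exact ⟨((p - 1 : ℕ) : ℤ_[p]) * n + p ^ 2 * n ^ 2 * k, by ring⟩
  have hb2 : b = 1 + p ^ 2 * b'' := by rw [hb1, hb'']; ring
  -- Hensel
  set F : Polynomial ℤ_[p] := Polynomial.X ^ p - Polynomial.C b with hF
  have hF1 : F.eval (1 + (p : ℤ_[p]) * b'') = (1 + (p : ℤ_[p]) * b'') ^ p - b := by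
    rw [hF, Polynomial.eval_sub, Polynomial.eval_pow, Polynomial.eval_X, Polynomial.eval_C]
  have hF2 : F.derivative.eval (1 + (p : ℤ_[p]) * b'') = p * (1 + (p : ℤ_[p]) * b'') ^ (p - 1) := by
    rw [hF, Polynomial.derivative_sub, Polynomial.derivative_C, sub_zero,
      Polynomial.derivative_X_pow, Polynomial.eval_mul, Polynomial.eval_pow, Polynomial.eval_X,
      Polynomial.eval_C]
  have hn1 : ‖(1 : ℤ_[p]) + p * b''‖ = 1 := by
    have h1 : ‖(p : ℤ_[p]) * b''‖ < 1 := by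
      rw [norm_mul]
      have h2 : ‖(p : ℤ_[p])‖ < 1 := np_lt
      calc ‖(p : ℤ_[p])‖ * ‖b''‖ ≤ ‖(p : ℤ_[p])‖ * 1 :=
            mul_le_mul_of_nonneg_left (PadicInt.norm_le_one _) (norm_nonneg _)
        _ < 1 := by rwa [mul_one]
    rw [IsUltrametricDist.norm_add_eq_max_of_norm_ne_norm (by rw [norm_one]; exact h1.ne'),
      norm_one]
    exact max_eq_left h1.le
  have hdv : (p : ℤ_[p]) ^ 3 ∣ (1 + (p : ℤ_[p]) * b'') ^ p - b := by
    obtain ⟨k, hk⟩ := bin3 ((p : ℤ_[p]) * b'') p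
    obtain ⟨l, hl⟩ := hpp.odd_of_ne_two hp2
    have hch : p.choose 2 = p * l := by
      rw [Nat.choose_two_right]
      have : p - 1 = 2 * l := by omega
      rw [this, show p * (2 * l) = (p * l) * 2 by ring, Nat.mul_div_cancel _ (by norm_num)]
    rw [hk, hb2, hch]
    refine ⟨(l : ℤ_[p]) * b'' ^ 2 + b'' ^ 3 * k, ?_⟩
    push_cast
    ring
  have hhen : ‖F.eval (1 + (p : ℤ_[p]) * b'')‖ < ‖F.derivative.eval (1 + (p : ℤ_[p]) * b'')‖ ^ 2 := by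
    rw [hF1, hF2]
    obtain ⟨e, he⟩ := hdv
    rw [he, norm_mul, norm_pow, norm_mul, norm_pow, hn1, one_pow, mul_one]
    have h1 : 0 < ‖(p : ℤ_[p])‖ := norm_pos_iff.2 hp0
    have h2 : ‖(p : ℤ_[p])‖ < 1 := np_lt
    calc ‖(p : ℤ_[p])‖ ^ 3 * ‖e‖ ≤ ‖(p : ℤ_[p])‖ ^ 3 * 1 :=
          mul_le_mul_of_nonneg_left (PadicInt.norm_le_one _) (by positivity)
      _ < ‖(p : ℤ_[p])‖ ^ 2 := by
          rw [mul_one]
          exact pow_lt_pow_right_of_lt_one₀ h1 h2 (by norm_num)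
  obtain ⟨z, hz, -⟩ := hensels_lemma (F := F) hhen
  have hzb : z ^ p = b := by
    have h1 : F.eval z = z ^ p - b := by
      rw [hF, Polynomial.eval_sub, Polynomial.eval_pow, Polynomial.eval_X, Polynomial.eval_C]
    have h2 : F.eval z = 0 := by simpa using hz
    rw [h1] at h2
    exact sub_eq_zero.1 h2
  refine ⟨(a : ℚ_[p]) / z, ?_⟩
  have hab : a ^ p = a * b := by
    rw [hb, ← pow_succ', Nat.sub_add_cancel hpp.one_le]
  have hb0 : (b : ℚ_[p]) ≠ 0 := by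
    intro h0
    have h1 : ‖(b : ℚ_[p])‖ = 1 := hbn
    rw [h0, norm_zero] at h1
    exact zero_ne_one h1
  rw [div_pow, div_eq_iff]
  · have h1 : ((a ^ p : ℤ_[p]) : ℚ_[p]) = ((a * b : ℤ_[p]) : ℚ_[p]) := by rw [hab]
    rw [← hzb] at h1
    push_cast at h1
    exact h1
  · have h1 : ((z ^ p : ℤ_[p]) : ℚ_[p]) = (b : ℚ_[p]) := by rw [hzb]
    push_cast at h1
    rw [h1]
    exact hb0

end Pool.Agent.L7h15.SG
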