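import Pool.Agent.L7h15.SG.Pu
import Pool.Agent.L7h15.SG.Pw

/-!
# Project SG, job H2, part 4: norms of local fields
-/

set_option autoImplicit false
set_option linter.unusedSectionVars false

namespace Pool.Agent.L7h15.SG

open Pool.Agent.L7h48.SG
open Pool.Agent.Y715.Nr Pool.Agent.W237.RK
open Pool.Agent.L7h60.SG (HP.mul HP.one HP.inv HP.pow Kr mem_Kr isOpen_Kr)

section

variable {K Ω : Type} [Field K] [Field Ω] [Algebra K Ω] [IsGalois K Ω] [IsAlgClosed Ω]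

/-- the fixed field of an open subgroup -/
lemma fixing_open (Q : Subgroup (Ω ≃ₐ[K] Ω)) (hQ : IsOpen (Q : Set (Ω ≃ₐ[K] Ω))) :
    (IntermediateField.fixedField Q).fixingSubgroup = Q :=
  InfiniteGalois.fixingSubgroup_fixedField
    (⟨Q, Subgroup.isClosed_of_isOpen Q hQ⟩ : ClosedSubgroup (Ω ≃ₐ[K] Ω))

lemma finite_open (Q : Subgroup (Ω ≃ₐ[K] Ω)) (hQ : IsOpen (Q : Set (Ω ≃ₐ[K] Ω))) :
    FiniteDimensional K (IntermediateField.fixedField Q) := by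
  rw [← InfiniteGalois.isOpen_iff_finite]
  rw [fixing_open Q hQ]
  exact hQ

lemma mem_fixed (Q : Subgroup (Ω ≃ₐ[K] Ω)) (x : Ω) :
    x ∈ IntermediateField.fixedField Q ↔ ∀ σ ∈ Q, σ x = x := by
  rw [IntermediateField.mem_fixedField_iff]

/-- **The norm formula**: `V` open, `φ : V → ZMod p` with kernel `Q`, `φ σ = 1`, `z` fixed by `Q`, the
product of the `σ ^ i z` is in the ground field -/
theorem norm_formula (p : ℕ) [hp : Fact p.Prime] (V : Subgroup (Ω ≃ₐ[K] Ω))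
    [V.FiniteIndex] {φ : (Ω ≃ₐ[K] Ω) → ZMod p} (hφ : φ ∈ HP p V)
    {σ : Ω ≃ₐ[K] Ω} (hσ : σ ∈ V) (hφσ : φ σ = 1) (Q : Subgroup (Ω ≃ₐ[K] Ω))
    (hQ : ∀ x, x ∈ Q ↔ x ∈ V ∧ φ x = 0) (hQo : IsOpen (Q : Set (Ω ≃ₐ[K] Ω)))
    [FiniteDimensional K (IntermediateField.fixedField Q)]
    (z : IntermediateField.fixedField Q) {x : K}
    (hx : ∏ i ∈ Finset.range p, (σ ^ i) (z : Ω) = algebraMap K Ω x) :
    Algebra.norm K z = x ^ V.index := by
  classical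
  have hfix := fixing_open Q hQo
  have : Fintype ((Ω ≃ₐ[K] Ω) ⧸ V) := Fintype.ofFinite _
  have hpow : ∀ i : ℕ, φ (σ ^ i) = i := fun i => by rw [HP.pow p hφ hσ, hφσ, mul_one]
  -- the embeddings
  let Φ : ((Ω ≃ₐ[K] Ω) ⧸ V) × Fin p → (IntermediateField.fixedField Q →ₐ[K] Ω) := fun q =>
    ((q.1.out * σ ^ (q.2 : ℕ) : Ω ≃ₐ[K] Ω) : Ω →ₐ[K] Ω).comp (IntermediateField.fixedField Q).val
  have hΦ : ∀ q (w : IntermediateField.fixedField Q), Φ q w = (q.1.out) ((σ ^ (q.2 : ℕ)) (w : Ω)) :=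
    fun q w => rfl
  have hbij : Function.Bijective Φ := by
    constructor
    · rintro ⟨y, i⟩ ⟨y', i'⟩ h
      have h1 : (y'.out * σ ^ (i' : ℕ))⁻¹ * (y.out * σ ^ (i : ℕ)) ∈ Q := by
        rw [← hfix, IntermediateField.mem_fixingSubgroup_iff]
        intro w hw
        have h2 := DFunLike.congr_fun h ⟨w, hw⟩
        change (y.out * σ ^ (i : ℕ)) w = (y'.out * σ ^ (i' : ℕ)) w at h2
        rw [AlgEquiv.mul_apply, h2, ← AlgEquiv.mul_apply, inv_mul_cancel]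
        rfl
      have hsi : σ ^ (i : ℕ) ∈ V := V.pow_mem hσ _
      have hsi' : σ ^ (i' : ℕ) ∈ V := V.pow_mem hσ _
      have h3 : y'.out⁻¹ * y.out ∈ V := by
        have h4 := ((hQ _).1 h1).1
        rw [mul_inv_rev] at h4
        have h5 : y'.out⁻¹ * y.out = σ ^ (i' : ℕ) * ((σ ^ (i' : ℕ))⁻¹ * y'.out⁻¹ *
            (y.out * σ ^ (i : ℕ))) * (σ ^ (i : ℕ))⁻¹ := by group
        rw [h5]
        exact V.mul_mem (V.mul_mem hsi' h4) (V.inv_mem hsi)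
      have h4 : y = y' := by
        rw [← QuotientGroup.out_eq' y, ← QuotientGroup.out_eq' y']
        exact (QuotientGroup.eq.2 h3).symm
      subst h4
      have h5 : (σ ^ (i' : ℕ))⁻¹ * σ ^ (i : ℕ) ∈ Q := by
        have : (y.out * σ ^ (i' : ℕ))⁻¹ * (y.out * σ ^ (i : ℕ)) = (σ ^ (i' : ℕ))⁻¹ * σ ^ (i : ℕ) := by
          group
        rwa [this] at h1
      have h6 := ((hQ _).1 h5).2
      rw [HP.mul p hφ (V.inv_mem hsi') hsi, HP.inv p hφ hsi', hpow, hpow, neg_add_eq_zero] at h6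
      have h7 := (ZMod.natCast_eq_natCast_iff' _ _ _).1 h6
      rw [Nat.mod_eq_of_lt i.2, Nat.mod_eq_of_lt i'.2] at h7
      rw [Fin.ext h7]
    · intro f
      obtain ⟨g, hg⟩ : ∃ g : Ω ≃ₐ[K] Ω, ∀ w : IntermediateField.fixedField Q, g (w : Ω) = f w := by
        refine ⟨AlgEquiv.ofBijective (f.liftNormal Ω) (AlgHom.normal_bijective K Ω Ω _), ?_⟩
        intro w
        exact f.liftNormal_commutes Ω w
      set y : (Ω ≃ₐ[K] Ω) ⧸ V := QuotientGroup.mk g with hy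
      have hv : y.out⁻¹ * g ∈ V := by
        rw [← QuotientGroup.eq, QuotientGroup.out_eq']
      set i := (φ (y.out⁻¹ * g)).val with hi
      refine ⟨⟨y, ⟨i, ZMod.val_lt _⟩⟩, ?_⟩
      ext w
      rw [hΦ]
      have h1 : (σ ^ i)⁻¹ * (y.out⁻¹ * g) ∈ Q := by
        refine (hQ _).2 ⟨V.mul_mem (V.inv_mem (V.pow_mem hσ _)) hv, ?_⟩
        rw [HP.mul p hφ (V.inv_mem (V.pow_mem hσ _)) hv, HP.inv p hφ (V.pow_mem hσ _), hpow, hi,
          ZMod.natCast_val, ZMod.cast_id, neg_add_cancel]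
      have h2 : ((σ ^ i)⁻¹ * (y.out⁻¹ * g)) (w : Ω) = w := (mem_fixed Q (w : Ω)).1 w.2 _ h1
      rw [← hg w]
      have h3 : g = y.out * σ ^ i * ((σ ^ i)⁻¹ * (y.out⁻¹ * g)) := by group
      conv_rhs => rw [h3]
      rw [AlgEquiv.mul_apply, h2, AlgEquiv.mul_apply]
  apply (algebraMap K Ω).injective
  rw [Algebra.norm_eq_prod_embeddings K Ω z, ← (Equiv.ofBijective Φ hbij).prod_comp]
  simp only [Equiv.ofBijective_apply, hΦ]
  rw [Fintype.prod_prod_type]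
  have h1 : ∀ y : (Ω ≃ₐ[K] Ω) ⧸ V, ∏ i : Fin p, (y.out) ((σ ^ (i : ℕ)) (z : Ω)) =
      algebraMap K Ω x := by
    intro y
    rw [← map_prod, ← Finset.prod_range (fun i => (σ ^ i) (z : Ω)), hx, AlgEquiv.commutes]
  rw [Finset.prod_congr rfl fun y _ => h1 y, Finset.prod_const, Finset.card_univ, map_pow,
    Subgroup.index_eq_card, Nat.card_eq_fintype_card]

end

section loc

variable {p : ℕ} [hp : Fact p.Prime]

/-- a `p²`-th root of unity is moved by the open subgroups of index prime to `p` -/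
theorem exists_move (hH : S_H1) (hp2 : p ≠ 2) (V : Subgroup (Au p)) (hV : IsOpen (V : Set (Au p)))
    (hi : ¬ p ∣ V.index) {η : PadicAlgCl p} (hη : IsPrimitiveRoot η (p ^ 2)) :
    ∃ τ ∈ V, τ η ≠ η := by
  by_contra hcon
  push Not at hcon
  have hpp := hp.out
  set L := IntermediateField.fixedField V with hL
  have hfin : FiniteDimensional ℚ_[p] L := finite_open V hV
  have hηL : η ∈ L := (mem_fixed V η).2 hcon
  have hrk : Module.finrank ℚ_[p] L = V.index := by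
    rw [IntermediateField.finrank_eq_fixingSubgroup_index, hL, fixing_open V hV]
  obtain ⟨w, hw⟩ : ∃ w : L, w = algebraMap ℚ_[p] L (1 + p) := ⟨_, rfl⟩
  have h1p : (1 : ℚ_[p]) + p ≠ 0 := by
    have : ((1 + p : ℕ) : ℚ_[p]) ≠ 0 := by
      exact_mod_cast (by omega : 1 + p ≠ 0)
    push_cast at this
    exact this
  have hw0 : w ≠ 0 := by
    rw [hw]
    exact (map_ne_zero _).2 h1p
  obtain ⟨k, n, hkn⟩ := hH p hp2 L hfin ⟨η, hηL, hη⟩ w hw0
  rw [hw, Algebra.norm_algebraMap, hrk] at hkn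
  have hn1 : ‖((1 : ℚ_[p]) + p) ^ V.index‖ = 1 := by
    have h1 : ‖(1 : ℚ_[p]) + p‖ = 1 := by
      have h2 : ‖(p : ℚ_[p])‖ < 1 := Padic.norm_p_lt_one
      rw [IsUltrametricDist.norm_add_eq_max_of_norm_ne_norm (by rw [norm_one]; exact h2.ne'),
        norm_one]
      exact max_eq_left h2.le
    rw [norm_pow, h1, one_pow]
  have h1 := unit_eq hn1 hkn
  have h2 : (1 + (p : ℤ_[p]) * 1) ^ V.index = 1 + (p : ℤ_[p]) ^ 2 * n := by
    apply Subtype.ext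
    rw [mul_one]
    push_cast
    exact h1
  have h3 : (p : ℤ_[p]) ∣ 1 := by
    refine dvd_of_bin hi ?_
    rw [h2]
    exact ⟨n, by ring⟩
  exact PadicInt.prime_p.not_isUnit (isUnit_of_dvd_one h3)

/-- the norm argument -/
theorem loc_pow (hH : S_H1) (hp2 : p ≠ 2) (V : Subgroup (Au p)) (hV : IsOpen (V : Set (Au p)))
    [V.FiniteIndex] {η : PadicAlgCl p} (hη : IsPrimitiveRoot η (p ^ 2)) {φ : Au p → ZMod p}
    (hφ : φ ∈ HP p V) (hφη : ∀ τ ∈ V, φ τ = 0 → τ η = η) {σ : Au p} (hσ : σ ∈ V) (hφσ : φ σ = 1)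
    {z : PadicAlgCl p} (hz0 : z ≠ 0) (hz : ∀ τ ∈ V, φ τ = 0 → τ z = z) {x : ℚ_[p]}
    (hx : ∏ i ∈ Finset.range p, (σ ^ i) z = algebraMap ℚ_[p] (PadicAlgCl p) x) :
    ∃ (k : ℤ) (n : ℤ_[p]), x ^ V.index = (p : ℚ_[p]) ^ k * (1 + (p : ℚ_[p]) ^ 2 * (n : ℚ_[p])) := by
  obtain ⟨Q, hQ⟩ : ∃ Q : Subgroup (Au p), Q = Kr p hφ := ⟨_, rfl⟩
  have hQm : ∀ x, x ∈ Q ↔ x ∈ V ∧ φ x = 0 := by
    intro x
    rw [hQ]
    exact mem_Kr p hφ x
  have hQo : IsOpen (Q : Set (Au p)) := by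
    rw [hQ]
    exact isOpen_Kr p hV hφ
  have hfin : FiniteDimensional ℚ_[p] (IntermediateField.fixedField Q) := finite_open Q hQo
  have hηL : η ∈ IntermediateField.fixedField Q :=
    (mem_fixed Q η).2 fun τ hτ => hφη τ ((hQm τ).1 hτ).1 ((hQm τ).1 hτ).2
  have hzL : z ∈ IntermediateField.fixedField Q :=
    (mem_fixed Q z).2 fun τ hτ => hz τ ((hQm τ).1 hτ).1 ((hQm τ).1 hτ).2
  obtain ⟨Z, hZ⟩ : ∃ Z : IntermediateField.fixedField Q, Z = ⟨z, hzL⟩ := ⟨_, rfl⟩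
  have hZ0 : Z ≠ 0 := by
    intro h
    apply hz0
    have := congrArg (fun y : IntermediateField.fixedField Q => (y : PadicAlgCl p)) (hZ.symm.trans h)
    exact this
  obtain ⟨k, n, hkn⟩ := hH p hp2 (IntermediateField.fixedField Q) hfin ⟨η, hηL, hη⟩ Z hZ0
  have h1 := norm_formula p V hφ hσ hφσ Q hQm hQo Z (x := x) (by rw [hZ]; exact hx)
  exact ⟨k, n, by rw [← h1, hkn]⟩

end loc

end Pool.Agent.L7h15.SG
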