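import Pool.Agent.L7h15.SG.Al
import Pool.Agent.L7h15.SG.Loc

/-!
# Project SG, job H2: a class of `P` which is invariant under the conjugation
-/

set_option autoImplicit false
set_option linter.unusedSectionVars false

namespace Pool.Agent.L7h15.SG

open Pool.Agent.L7h48.SG
open Pool.Agent.Y715.Gi (QB KK GK)
open Pool.Agent.Y715.Nr Pool.Agent.W237.RK
open Pool.Agent.Y715.Df (Cmp)
open Pool.Agent.Z384 (II DD DDs)
open Pool.Agent.L7h60.SG (zc zc_zero zc_natCast zc_add zc_ne zc_neg zc_inj exists_zc map_zc HP.mul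
  HP.one HP.inv HP.pow)

section glob

variable {p : ℕ} [hp : Fact p.Prime] {s : QB}

lemma cj_cj {c : QB ≃ₐ[ℚ] QB} (hc : IsConj c) {cj : GK s → GK s}
    (hcj : ∀ σ x, cj σ x = c (σ (c x))) (σ : GK s) : cj (cj σ) = σ := by
  ext x
  rw [hcj, hcj, conj_conj hc, conj_conj hc]

lemma map_zc_inv {F : Type*} [FunLike F QB QB] [RingHomClass F QB QB] (σ : F) {ζ : QB}
    (h : σ ζ = ζ⁻¹) (a : ZMod p) : σ (zc ζ a) = (zc ζ a)⁻¹ := by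
  unfold zc
  rw [map_pow, h, inv_pow]

/-- the Kummer characters of the elements with `c(β) β` a root of unity are invariant -/
theorem kum_conj {c : QB ≃ₐ[ℚ] QB} (hc : IsConj c) {cj : GK s → GK s}
    (hcj : ∀ σ x, cj σ x = c (σ (c x))) {𝓛 : Subgroup (GK s)} (hcL : ∀ σ ∈ 𝓛, cj σ ∈ 𝓛) {ζ : QB}
    (hζ : IsPrimitiveRoot ζ p) (hfix : ∀ σ ∈ 𝓛, σ ζ = ζ) {β : QB} (hβ : β ≠ 0)
    (hcβ : (c β) ^ p * β ^ p = 1) {k : GK s → ZMod p} (hk0 : ∀ σ, σ ∉ 𝓛 → k σ = 0)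
    (hk : ∀ σ ∈ 𝓛, σ β = zc ζ (k σ) * β) (σ : GK s) : k (cj σ) = k σ := by
  by_cases hσ : σ ∈ 𝓛
  · have h1 : (c β * β) ^ p = 1 := by rw [mul_pow, hcβ]
    obtain ⟨a, ha⟩ := exists_zc hζ h1
    have hcb : c β = zc ζ a * β⁻¹ := by
      rw [← ha, mul_assoc, mul_inv_cancel₀ hβ, mul_one]
    have hcζ : c ζ = ζ⁻¹ := conj_root hc hp.out.ne_zero hζ.pow_eq_one
    have h2 : cj σ β = zc ζ (k σ) * β := by
      rw [hcj]
      have h3 : σ (c β) = (zc ζ (k σ))⁻¹ * c β := by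
        rw [hcb, map_mul, map_zc σ (hfix σ hσ), map_inv₀, hk σ hσ, mul_inv]
        ring
      rw [h3, map_mul, map_inv₀, map_zc_inv c hcζ, inv_inv, conj_conj hc]
    rw [hk _ (hcL σ hσ)] at h2
    exact zc_inj hζ (mul_right_cancel₀ hβ h2)
  · have h1 : cj σ ∉ 𝓛 := by
      intro h
      have h2 := hcL _ h
      rw [cj_cj hc hcj] at h2
      exact hσ h2
    rw [hk0 _ hσ, hk0 _ h1]

/-- a Kummer character of a `p`-unit is trivial on `Nf` -/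
theorem kum_nf (hE : S_E0) (hD : S_D3) {d : ℕ} (hS : Spl p s d) {ι₀ : QB →ₐ[ℚ] PadicAlgCl p}
    {𝓛 : Subgroup (GK s)} (hL : Lev p 𝓛 ι₀) {ζ : QB} (hζ : IsPrimitiveRoot ζ p) {β : QB}
    (hβ : PUnit p (β ^ p)) (hu : ∀ σ ∈ 𝓛, σ (β ^ p) = β ^ p) {k : GK s → ZMod p}
    (hkH : k ∈ HP p 𝓛) (hk : ∀ σ ∈ 𝓛, σ β = zc ζ (k σ) * β) : ∀ σ ∈ Nf p 𝓛, k σ = 0 := by
  obtain ⟨-, -, hNL, -, -, -, -, -, -, h10, -⟩ := hE p s d hS ι₀ 𝓛 hL
  exact h10 𝓛 hL.isOpen hNL le_rfl k hkH (kum_ram hD hζ hβ hu hk)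

/-- an element of `K` which is a `p`-th power of an element fixed by `𝓛` is a `p`-th power in `K` -/
theorem descend {𝓛 : Subgroup (GK s)} (hi : ¬ p ∣ 𝓛.index)
    {α γ : QB} (hα : α ∈ KK s) (hα0 : α ≠ 0) (hγ : γ ^ p = α) (hfix : ∀ σ ∈ 𝓛, σ γ = γ) :
    ∃ y ∈ KK s, y ^ p = α := by
  classical
  have hpp := hp.out
  have hfi : 𝓛.FiniteIndex := ⟨fun h => hi (by rw [h]; exact dvd_zero p)⟩
  have : Fintype (GK s ⧸ 𝓛) := Fintype.ofFinite _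
  have hαf : ∀ σ : GK s, σ α = α := fun σ => σ.commutes ⟨α, hα⟩
  have hcl : ∀ g g' : GK s, (QuotientGroup.mk g : GK s ⧸ 𝓛) = QuotientGroup.mk g' → g γ = g' γ := by
    intro g g' h
    have h1 := hfix _ (QuotientGroup.eq.1 h)
    have h2 := congrArg g h1
    rw [← AlgEquiv.mul_apply, mul_inv_cancel_left] at h2
    exact h2.symm
  set N : QB := ∏ q : GK s ⧸ 𝓛, (q.out) γ with hN
  have hNf : ∀ g : GK s, g N = N := by
    intro g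
    rw [hN, map_prod]
    have h1 : ∀ q : GK s ⧸ 𝓛, g ((q.out) γ) = ((g • q).out) γ := by
      intro q
      rw [← AlgEquiv.mul_apply]
      apply hcl
      rw [QuotientGroup.out_eq']
      conv_rhs => rw [← QuotientGroup.out_eq' q]
      rfl
    rw [Finset.prod_congr rfl fun q _ => h1 q]
    exact Equiv.prod_comp (MulAction.toPerm g : Equiv.Perm (GK s ⧸ 𝓛)) (fun q : GK s ⧸ 𝓛 => (q.out) γ)
  have hNK : N ∈ KK s := by
    obtain ⟨y, hy⟩ := (InfiniteGalois.mem_range_algebraMap_iff_fixed (k := KK s) N).2 hNf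
    rw [← hy]
    exact y.2
  have hNp : N ^ p = α ^ 𝓛.index := by
    rw [hN, ← Finset.prod_pow]
    have h1 : ∀ q : GK s ⧸ 𝓛, ((q.out) γ) ^ p = α := by
      intro q
      rw [← map_pow, hγ, hαf]
    rw [Finset.prod_congr rfl fun q _ => h1 q, Finset.prod_const, Finset.card_univ,
      Subgroup.index_eq_card, Nat.card_eq_fintype_card]
  obtain ⟨x, y, hxy⟩ : IsCoprime (𝓛.index : ℤ) (p : ℤ) :=
    Nat.isCoprime_iff_coprime.2 ((Nat.Prime.coprime_iff_not_dvd hpp).2 hi).symm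
  refine ⟨N ^ x * α ^ y, mul_mem (zpow_mem hNK x) (zpow_mem hα y), ?_⟩
  have h1 : (N ^ x * α ^ y) ^ p = (N ^ p) ^ x * (α ^ y) ^ p := by
    rw [mul_pow, ← zpow_natCast (N ^ x) p, ← zpow_natCast N p, ← zpow_mul, ← zpow_mul,
      mul_comm x]
  rw [h1, hNp, ← zpow_natCast α, ← zpow_natCast (α ^ y), ← zpow_mul, ← zpow_mul, ← zpow_add₀ hα0]
  have h2 : (𝓛.index : ℤ) * x + y * p = 1 := by rw [← hxy]; ring
  rw [h2, zpow_one]

end glob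

theorem s_H2 (hE : S_E0) (hE1 : S_E1) (hD : S_D3) (_ : S_G1) (hNA : S_NA) (hH : S_H1) : S_H2 := by
  intro p _ s d hS ι₀ 𝓛 hL χ _ c hc cj hcj hcL
  have hpp : p.Prime := Fact.out
  have hp0 : (p : QB) ≠ 0 := by exact_mod_cast hpp.ne_zero
  have hd0 : d ≠ 0 := hS.pos.ne'
  -- roots of unity
  obtain ⟨η, hη⟩ := Pool.Agent.L7h79.SG.exists_prim p 2
  obtain ⟨ζ, hζη⟩ : ∃ ζ : QB, ζ = η ^ p := ⟨_, rfl⟩
  have hη0 : η ≠ 0 := hη.ne_zero (pow_ne_zero 2 hpp.ne_zero)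
  have hζ : IsPrimitiveRoot ζ p := by
    rw [hζη]
    exact hη.pow (pow_pos hpp.pos 2) (pow_two p)
  have hfix : ∀ σ ∈ 𝓛, σ ζ = ζ := fun σ hσ => hL.mu σ hσ ζ hζ.pow_eq_one
  -- the first character
  obtain ⟨h, hh, hhη⟩ := exists_kum hL.isOpen hζ hfix hη0 (fun σ hσ => by
    rw [← hζη]
    exact hfix σ hσ)
  have hζpu : PUnit p ζ := pu_root (n := p) hpp.ne_zero (by
    rw [hζ.pow_eq_one]
    exact Pool.Agent.L7h79.SG.pUnit_one)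
  -- the element `α`
  obtain ⟨j, α, hαK, hαi, hαc, hαn, hαp⟩ := exists_alpha hS ι₀ hc
  have hα0 : α ≠ 0 := by
    rintro rfl
    rw [zero_mul] at hαc
    exact pow_ne_zero _ hp0 hαc.symm
  have hcα0 : c α ≠ 0 := (map_ne_zero c).2 hα0
  have hαpu : PUnit p α := by
    refine ⟨hα0, j, (int_p j).mul hαi, ?_⟩
    have : (p : QB) ^ j * α⁻¹ = c α := by
      rw [← hαc]
      field_simp
    rw [this]
    exact integral_map c hαi
  have hαf : ∀ σ : GK s, σ α = α := fun σ => σ.commutes ⟨α, hαK⟩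
  have hcαf : ∀ σ : GK s, σ (c α) = c α := fun σ =>
    σ.commutes ⟨c α, c_mem hc hS.sq hd0 hαK⟩
  -- the second character
  obtain ⟨β, hβ⟩ := IsAlgClosed.exists_pow_nat_eq (α / c α) hpp.pos
  have hβ0 : β ≠ 0 := by
    rintro rfl
    rw [zero_pow hpp.ne_zero] at hβ
    exact div_ne_zero hα0 hcα0 hβ.symm
  have hβf : ∀ σ ∈ 𝓛, σ (β ^ p) = β ^ p := by
    intro σ _
    rw [hβ, map_div₀, hαf, hcαf]
  have hβpu : PUnit p (β ^ p) := by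
    rw [hβ, div_eq_mul_inv]
    exact pu_mul hαpu (pu_inv (pu_map (c : QB →+* QB) hαpu))
  obtain ⟨k, hk, hkβ⟩ := exists_kum hL.isOpen hζ hfix hβ0 hβf
  refine ⟨h, k, hh, hk, ?_, ?_, ?_, ?_, ?_⟩
  · exact kum_nf hE hD hS hL hζ (by rw [← hζη]; exact hζpu)
      (fun σ hσ => by rw [← hζη]; exact hfix σ hσ) hh hhη
  · exact kum_nf hE hD hS hL hζ hβpu hβf hk hkβ
  · refine kum_conj hc hcj hcL hζ hfix hη0 ?_ hh.2.2 hhη
    rw [← map_pow, ← hζη, conj_root hc hpp.ne_zero hζ.pow_eq_one,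
      inv_mul_cancel₀ (hζ.ne_zero hpp.ne_zero)]
  · refine kum_conj hc hcj hcL hζ hfix hβ0 ?_ hk.2.2 hkβ
    rw [← map_pow, hβ, map_div₀, conj_conj hc]
    field_simp
  rintro ⟨a, ha, -, hab⟩
  -- the local groups
  obtain ⟨r, hrc, hr, hrr⟩ := hE1 p s d hS ι₀
  obtain ⟨V, hV⟩ : ∃ V : Subgroup (Au p), V = 𝓛.comap r := ⟨_, rfl⟩
  have hVm : ∀ τ, τ ∈ V ↔ r τ ∈ 𝓛 := fun τ => by rw [hV]; exact Iff.rfl
  have hVo : IsOpen (V : Set (Au p)) := by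
    rw [hV]
    exact hL.isOpen.preimage hrc
  have hnorm := hL.normal
  have hVi : ¬ p ∣ V.index := by
    intro h1
    rw [hV, Subgroup.index_comap] at h1
    exact hL.cop (h1.trans (Subgroup.relIndex_dvd_index_of_normal 𝓛 r.range))
  have hVf : V.FiniteIndex := ⟨fun h0 => hVi (by rw [h0]; exact dvd_zero p)⟩
  obtain ⟨φ, hφd⟩ : ∃ φ : Au p → ZMod p, φ = fun τ => h (r τ) := ⟨_, rfl⟩
  obtain ⟨b, hbd⟩ : ∃ b : Au p → ZMod p, b = fun τ => k (r τ) := ⟨_, rfl⟩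
  have hpull : ∀ f ∈ HP p 𝓛, (fun τ : Au p => f (r τ)) ∈ HP p V := by
    rintro f ⟨h1, h2, h3⟩
    refine ⟨h1.comp_continuous hrc, fun x hx y hy => ?_, fun x hx => ?_⟩
    · change f (r (x * y)) = f (r x) + f (r y)
      rw [map_mul]
      exact h2 _ ((hVm x).1 hx) _ ((hVm y).1 hy)
    · exact h3 _ (fun h4 => hx ((hVm x).2 h4))
  have hφ : φ ∈ HP p V := by rw [hφd]; exact hpull h hh
  have hb : b ∈ HP p V := by rw [hbd]; exact hpull k hk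
  have hζ' : IsPrimitiveRoot (ι₀ ζ) p := hζ.map_of_injective ι₀.injective
  have hη' : IsPrimitiveRoot (ι₀ η) (p ^ 2) := hη.map_of_injective ι₀.injective
  have hfix' : ∀ τ ∈ V, τ (ι₀ ζ) = ι₀ ζ := by
    intro τ hτ
    rw [hr τ ζ, hfix _ ((hVm τ).1 hτ)]
  have hzι : ∀ e : ZMod p, ι₀ (zc ζ e) = zc (ι₀ ζ) e := by
    intro e
    unfold zc
    rw [map_pow]
  have hφη : ∀ τ ∈ V, φ τ = 0 → τ (ι₀ η) = ι₀ η := by
    intro τ hτ h0
    have h0 : h (r τ) = 0 := by rw [hφd] at h0; exact h0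
    rw [hr τ η, hhη _ ((hVm τ).1 hτ), h0, zc_zero, one_mul]
  obtain ⟨τ₀, hτ₀, hτ₀η⟩ := exists_move hH hS.odd V hVo hVi hη'
  have hφτ₀ : φ τ₀ ≠ 0 := fun h0 => hτ₀η (hφη τ₀ hτ₀ h0)
  obtain ⟨σ, hσ, hσ1⟩ : ∃ σ ∈ V, φ σ = 1 := by
    refine ⟨τ₀ ^ ((φ τ₀)⁻¹).val, V.pow_mem hτ₀ _, ?_⟩
    rw [HP.pow p hφ hτ₀, ZMod.natCast_val, ZMod.cast_id, inv_mul_cancel₀ hφτ₀]
  have hβ'0 : ι₀ β ≠ 0 := (map_ne_zero ι₀).2 hβ0
  have hbβ : ∀ τ ∈ V, τ (ι₀ β) = (ι₀ ζ) ^ (b τ).val * ι₀ β := by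
    intro τ hτ
    rw [hr τ β, hkβ _ ((hVm τ).1 hτ), map_mul, hzι, hbd]
    rfl
  have hB : IsB p V (cup p φ b) := by
    refine ⟨fun τ => a (r τ), ha.comp_continuous hrc, fun x hx y hy => ?_⟩
    rw [hφd, hbd]
    change h (r x) * k (r y) = a (r x) + a (r y) - a (r (x * y))
    rw [map_mul]
    exact hab _ ((hVm x).1 hx) _ ((hVm y).1 hy)
  obtain ⟨z, hz0, hz, hzβ⟩ := hNA p hS.odd V hVo (ι₀ ζ) hζ' hfix' φ hφ b hb σ hσ hσ1 (ι₀ β) hβ'0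
    hbβ hB
  -- the `p`-adic number `ι₀ α`
  obtain ⟨a₀, ha₀⟩ : ∃ a₀ : ℚ_[p], algebraMap ℚ_[p] (PadicAlgCl p) a₀ = ι₀ α := by
    refine (InfiniteGalois.mem_range_algebraMap_iff_fixed (k := ℚ_[p]) (ι₀ α)).2 fun τ => ?_
    rw [hr τ α, hαf]
  have ha₀n : ‖a₀‖ = 1 := by
    have h1 : ‖algebraMap ℚ_[p] (PadicAlgCl p) a₀‖ = ‖a₀‖ := PadicAlgCl.norm_extends p a₀
    rw [← h1, ha₀, hαn]
  have hp0' : (p : ℚ_[p]) ≠ 0 := by exact_mod_cast hpp.ne_zero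
  have hx : ∏ i ∈ Finset.range p, (σ ^ i) z =
      algebraMap ℚ_[p] (PadicAlgCl p) (a₀ ^ 2 / (p : ℚ_[p]) ^ j) := by
    rw [hzβ, ← map_pow, hβ]
    have h1 : α / c α = α ^ 2 / (p : QB) ^ j := by
      rw [← hαc]
      field_simp
    rw [h1, map_div₀, map_div₀, map_pow, map_pow, map_pow, map_pow, ha₀, map_natCast, map_natCast]
  obtain ⟨e, n, hen⟩ := loc_pow hH hS.odd V hVo hη' hφ hφη hσ hσ1 hz0 hz hx
  have h1 : a₀ ^ (2 * V.index) = (p : ℚ_[p]) ^ (e + ((j * V.index : ℕ) : ℤ)) *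
      (1 + (p : ℚ_[p]) ^ 2 * (n : ℚ_[p])) := by
    rw [div_pow, div_eq_iff (pow_ne_zero _ (pow_ne_zero _ hp0'))] at hen
    rw [pow_mul, hen, zpow_add₀ hp0', zpow_natCast, pow_mul]
    ring
  have h2 := unit_eq (by rw [norm_pow, ha₀n, one_pow]) h1
  have h2M : ¬ p ∣ 2 * V.index := by
    intro h3
    rcases (Nat.Prime.dvd_mul hpp).1 h3 with h4 | h4
    · exact hS.odd ((Nat.prime_dvd_prime_iff_eq hpp Nat.prime_two).1 h4)
    · exact hVi h4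
  obtain ⟨A, hA⟩ : ∃ A : ℤ_[p], (A : ℚ_[p]) = a₀ := ⟨⟨a₀, ha₀n.le⟩, rfl⟩
  have hA1 : ‖A‖ = 1 := by
    have : ‖(A : ℚ_[p])‖ = 1 := by rw [hA, ha₀n]
    exact this
  obtain ⟨w, hw⟩ := pth_power hS.odd hA1 h2M (n := n) (by
    apply Subtype.ext
    push_cast
    rw [hA]
    exact h2)
  rw [hA] at hw
  -- the Kummer character of `α`
  obtain ⟨γ, hγ⟩ := IsAlgClosed.exists_pow_nat_eq α hpp.pos
  have hγ0 : γ ≠ 0 := by
    rintro rfl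
    rw [zero_pow hpp.ne_zero] at hγ
    exact hα0 hγ.symm
  have hγf : ∀ σ ∈ 𝓛, σ (γ ^ p) = γ ^ p := fun σ _ => by rw [hγ, hαf]
  obtain ⟨l, hl, hlγ⟩ := exists_kum hL.isOpen hζ hfix hγ0 hγf
  have hw0 : algebraMap ℚ_[p] (PadicAlgCl p) w ≠ 0 := by
    intro h0
    have h3 : ι₀ α = 0 := by
      rw [← ha₀, ← hw, map_pow, h0, zero_pow hpp.ne_zero]
    exact hα0 ((map_eq_zero ι₀).1 h3)
  have hl0 : l = 0 := by
    refine hL.reg l hl (fun σ hσ => ?_) fun δ hδ hδL => ?_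
    · exact kum_ram hD hζ (by rw [hγ]; exact hαpu) hγf hlγ σ (hL.unr σ hσ) hσ
    · rw [← hrr] at hδ
      obtain ⟨τ, rfl⟩ := hδ
      have h3 : (ι₀ γ / algebraMap ℚ_[p] (PadicAlgCl p) w) ^ p = 1 := by
        rw [div_pow, ← map_pow, ← map_pow, hγ, hw, ha₀, div_self ((map_ne_zero ι₀).2 hα0)]
      obtain ⟨e', he'⟩ := exists_zc hζ' h3
      have h4 : ι₀ γ = zc (ι₀ ζ) e' * algebraMap ℚ_[p] (PadicAlgCl p) w := by
        rw [← he', div_mul_cancel₀ _ hw0]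
      have h5 : τ (ι₀ γ) = ι₀ γ := by
        rw [h4, map_mul, map_zc τ (hfix' τ ((hVm τ).2 hδL)), AlgEquiv.commutes]
      rw [hr τ γ, hlγ _ hδL] at h5
      have h6 := ι₀.injective h5
      apply zc_inj hζ
      rw [zc_zero]
      exact mul_right_cancel₀ hγ0 (by rw [h6, one_mul])
  have hγL : ∀ σ ∈ 𝓛, σ γ = γ := by
    intro σ hσ
    rw [hlγ σ hσ, hl0, Pi.zero_apply, zc_zero, one_mul]
  obtain ⟨y, hyK, hy⟩ := descend hL.cop hαK hα0 hγ hγL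
  exact hαp y hyK hy

end Pool.Agent.L7h15.SG
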