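import Pool.Agent.L7h48.SG.Stm
import Pool.Agent.L7h79.SG.G1
import Pool.Agent.L7h60.SG.Kum

/-!
# Project SG, job H2, part 1: `p`-units, complex conjugation, Kummer characters
-/

set_option autoImplicit false
set_option linter.unusedSectionVars false

namespace Pool.Agent.L7h15.SG

open Pool.Agent.L7h48.SG
open Pool.Agent.Y715.Gi (QB KK GK)
open Pool.Agent.Y715.Nr Pool.Agent.W237.RK
open Pool.Agent.Z384 (II DD DDs)
open Pool.Agent.L7h60.SG (zc zc_zero zc_natCast zc_add zc_ne zc_neg zc_inj exists_zc map_zc)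

/-! ### `p`-units -/

section pu

variable {p : ℕ} [hp : Fact p.Prime]

theorem int_p (k : ℕ) : IsIntegral ℤ ((p : QB) ^ k) := by
  have : (p : QB) ^ k = algebraMap ℤ QB ((p : ℤ) ^ k) := by simp
  rw [this]
  exact isIntegral_algebraMap

theorem pu_pow_p (k : ℕ) : PUnit p ((p : QB) ^ k) := by
  have h0 : (p : QB) ≠ 0 := by exact_mod_cast hp.out.ne_zero
  refine ⟨pow_ne_zero _ h0, k, (int_p k).mul (int_p k), ?_⟩
  rw [mul_inv_cancel₀ (pow_ne_zero _ h0)]
  exact isIntegral_one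

theorem pu_root {x : QB} {n : ℕ} (hn : n ≠ 0) (h : PUnit p (x ^ n)) : PUnit p x := by
  obtain ⟨h0, k, h1, h2⟩ := h
  have hx : x ≠ 0 := by
    rintro rfl
    exact h0 (zero_pow hn)
  obtain ⟨m, rfl⟩ := Nat.exists_eq_succ_of_ne_zero hn
  refine ⟨hx, k, ?_, ?_⟩
  · refine IsIntegral.of_pow (n := m + 1) (Nat.succ_pos m) ?_
    have : ((p : QB) ^ k * x) ^ (m + 1) = (p : QB) ^ (k * m) * (p ^ k * x ^ (m + 1)) := by ring
    rw [this]
    exact (int_p _).mul h1
  · refine IsIntegral.of_pow (n := m + 1) (Nat.succ_pos m) ?_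
    have : ((p : QB) ^ k * x⁻¹) ^ (m + 1) = (p : QB) ^ (k * m) * (p ^ k * (x ^ (m + 1))⁻¹) := by
      rw [← inv_pow]
      ring
    rw [this]
    exact (int_p _).mul h2

theorem pu_mul {x y : QB} (hx : PUnit p x) (hy : PUnit p y) : PUnit p (x * y) := by
  obtain ⟨h0, k, h1, h2⟩ := hx
  obtain ⟨h0', k', h1', h2'⟩ := hy
  refine ⟨mul_ne_zero h0 h0', k + k', ?_, ?_⟩
  · have : (p : QB) ^ (k + k') * (x * y) = (p ^ k * x) * (p ^ k' * y) := by ring
    rw [this]
    exact h1.mul h1'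
  · have : (p : QB) ^ (k + k') * (x * y)⁻¹ = (p ^ k * x⁻¹) * (p ^ k' * y⁻¹) := by
      rw [mul_inv]
      ring
    rw [this]
    exact h2.mul h2'

theorem pu_inv {x : QB} (hx : PUnit p x) : PUnit p x⁻¹ := by
  obtain ⟨h0, k, h1, h2⟩ := hx
  exact ⟨inv_ne_zero h0, k, h2, by rwa [inv_inv]⟩

theorem pu_map (c : QB →+* QB) {x : QB} (hx : PUnit p x) : PUnit p (c x) := by
  obtain ⟨h0, k, h1, h2⟩ := hx
  refine ⟨(map_ne_zero c).2 h0, k, ?_, ?_⟩
  · have h := h1.map c.toIntAlgHom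
    have e : c.toIntAlgHom (p ^ k * x) = p ^ k * c x := by
      change c (p ^ k * x) = _
      rw [map_mul, map_pow, map_natCast]
    rwa [e] at h
  · have h := h2.map c.toIntAlgHom
    have e : c.toIntAlgHom (p ^ k * x⁻¹) = p ^ k * (c x)⁻¹ := by
      change c (p ^ k * x⁻¹) = _
      rw [map_mul, map_pow, map_natCast, map_inv₀]
    rwa [e] at h

end pu

/-! ### complex conjugation -/

section conj

variable {c : QB ≃ₐ[ℚ] QB}

theorem conj_conj (hc : IsConj c) (x : QB) : c (c x) = x := by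
  obtain ⟨j, hj⟩ := hc
  apply j.injective
  rw [hj, hj, Complex.conj_conj]

theorem conj_root (hc : IsConj c) {x : QB} {n : ℕ} (hn : n ≠ 0) (hx : x ^ n = 1) : c x = x⁻¹ := by
  obtain ⟨j, hj⟩ := hc
  apply j.injective
  rw [hj, map_inv₀]
  have h1 : (j x) ^ n = 1 := by rw [← map_pow, hx, map_one]
  have h2 : ‖j x‖ = 1 := Complex.norm_eq_one_of_pow_eq_one h1 hn
  rw [Complex.inv_def, Complex.normSq_eq_norm_sq, h2]
  simp

theorem conj_s (hc : IsConj c) {s : QB} {d : ℕ} (hs : s ^ 2 = -(d : QB)) (hd : d ≠ 0) : c s = -s := by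
  obtain ⟨j, hj⟩ := hc
  apply j.injective
  rw [hj, map_neg]
  have h1 : (j s) ^ 2 = -(d : ℂ) := by rw [← map_pow, hs, map_neg, map_natCast]
  have hre := congrArg Complex.re h1
  have him := congrArg Complex.im h1
  rw [pow_two, Complex.mul_re, Complex.neg_re, Complex.natCast_re] at hre
  rw [pow_two, Complex.mul_im, Complex.neg_im, Complex.natCast_im] at him
  have hd' : (0 : ℝ) < d := by exact_mod_cast Nat.pos_of_ne_zero hd
  have h2 : (j s).re = 0 := by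
    by_contra hne
    have h3 : (j s).im = 0 := by
      have : 2 * (j s).re * (j s).im = 0 := by linarith
      rcases mul_eq_zero.1 this with h | h
      · exact absurd (by linarith : (j s).re = 0) hne
      · exact h
    rw [h3] at hre
    nlinarith [sq_nonneg (j s).re]
  apply Complex.ext
  · rw [Complex.conj_re, Complex.neg_re, h2, neg_zero]
  · rw [Complex.conj_im, Complex.neg_im]

/-- the norm of a nonzero integral element of `ℚ(s)` is a positive integer -/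
theorem norm_nat (hc : IsConj c) {s : QB} {d : ℕ} (hs : s ^ 2 = -(d : QB)) (hd : d ≠ 0) {b : QB}
    (hb : b ∈ KK s) (hu : IsIntegral ℤ b) (h0 : b ≠ 0) : ∃ n : ℕ, 0 < n ∧ b * c b = n := by
  obtain ⟨u, v, rfl⟩ := Pool.Agent.Z384.KK_ex hs hb
  have h1 : c ((u : QB) + v * s) = u - v * s := by
    rw [map_add, map_mul, map_ratCast, map_ratCast, conj_s hc hs hd]
    ring
  have h2 : ((u : QB) + v * s) * c ((u : QB) + v * s) = ((u ^ 2 + d * v ^ 2 : ℚ) : QB) := by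
    rw [h1]
    push_cast
    linear_combination -(v : QB) ^ 2 * hs
  have h3 : IsIntegral ℤ (((u ^ 2 + d * v ^ 2 : ℚ) : QB)) := by
    rw [← h2]
    refine hu.mul ?_
    have h := hu.map (c : QB →+* QB).toIntAlgHom
    exact h
  have h4 : 0 < u ^ 2 + d * v ^ 2 := by
    refine lt_of_le_of_ne (by positivity) ?_
    intro h
    rw [← h, Rat.cast_zero] at h2
    rcases mul_eq_zero.1 h2 with h5 | h5
    · exact h0 h5
    · exact h0 ((map_eq_zero c).1 h5)
  have e : (((u ^ 2 + d * v ^ 2 : ℚ)) : QB) = algebraMap ℚ QB (u ^ 2 + d * v ^ 2) := by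
    rw [eq_ratCast]
  rw [e, isIntegral_algebraMap_iff (algebraMap ℚ QB).injective] at h3
  obtain ⟨a, ha⟩ := IsIntegrallyClosed.isIntegral_iff.1 h3
  rw [eq_intCast] at ha
  have ha0 : 0 < a := by
    have : (0 : ℚ) < (a : ℚ) := by rw [ha]; exact h4
    exact_mod_cast this
  lift a to ℕ using ha0.le
  refine ⟨a, by exact_mod_cast ha0, ?_⟩
  rw [h2, ← ha]
  push_cast
  rfl

end conj

/-! ### Kummer characters -/

section kum

variable {p : ℕ} [hp : Fact p.Prime] {s : QB}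

theorem lc_of_right {X : Type} {F : GK s → X} {U : Subgroup (GK s)} (hU : IsOpen (U : Set (GK s)))
    (hF : ∀ σ, ∀ τ ∈ U, F (σ * τ) = F σ) : IsLocallyConstant F := by
  rw [IsLocallyConstant.iff_exists_open]
  intro g
  refine ⟨(fun x => g⁻¹ * x) ⁻¹' (U : Set (GK s)), hU.preimage (by fun_prop), ?_, ?_⟩
  · change g⁻¹ * g ∈ U
    rw [inv_mul_cancel]
    exact U.one_mem
  · intro x hx
    have := hF g _ hx
    simpa using this

/-- the Kummer character of `β` on `𝓛` -/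
theorem exists_kum {𝓛 : Subgroup (GK s)} (hLo : IsOpen (𝓛 : Set (GK s))) {ζ : QB}
    (hζ : IsPrimitiveRoot ζ p) (hfix : ∀ σ ∈ 𝓛, σ ζ = ζ) {β : QB} (hβ : β ≠ 0)
    (hu : ∀ σ ∈ 𝓛, σ (β ^ p) = β ^ p) :
    ∃ k ∈ HP p 𝓛, ∀ σ ∈ 𝓛, σ β = zc ζ (k σ) * β := by
  classical
  have hex : ∀ σ ∈ 𝓛, ∃ a : ZMod p, σ β = zc ζ a * β := by
    intro σ hσ
    have h1 : (σ β / β) ^ p = 1 := by
      rw [div_pow, ← map_pow, hu σ hσ, div_self (pow_ne_zero _ hβ)]
    obtain ⟨a, ha⟩ := exists_zc hζ h1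
    exact ⟨a, by rw [← ha, div_mul_cancel₀ _ hβ]⟩
  choose! k hk using hex
  have huniq : ∀ {a b : ZMod p}, zc ζ a * β = zc ζ b * β → a = b := fun h =>
    zc_inj hζ (mul_right_cancel₀ hβ h)
  refine ⟨fun σ => if σ ∈ 𝓛 then k σ else 0, ⟨?_, ?_, ?_⟩, ?_⟩
  · have hst : IsOpen ((MulAction.stabilizer (GK s) β : Subgroup (GK s)) : Set (GK s)) :=
      stabilizer_isOpen_of_isIntegral (K := KK s) β
    refine lc_of_right (U := 𝓛 ⊓ MulAction.stabilizer (GK s) β) (hLo.inter hst) ?_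
    rintro σ τ ⟨h1, h2⟩
    have h2' : τ β = β := h2
    by_cases h : σ ∈ 𝓛
    · rw [if_pos h, if_pos (𝓛.mul_mem h h1)]
      apply huniq
      rw [← hk _ (𝓛.mul_mem h h1), ← hk _ h, AlgEquiv.mul_apply, h2']
    · rw [if_neg h, if_neg]
      intro h3
      exact h ((Subgroup.mul_mem_cancel_right 𝓛 h1).1 h3)
  · intro x hx y hy
    simp only [if_pos hx, if_pos hy, if_pos (𝓛.mul_mem hx hy)]
    apply huniq
    rw [← hk _ (𝓛.mul_mem hx hy), AlgEquiv.mul_apply, hk y hy, map_mul, hk x hx,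
      map_zc _ (hfix x hx), zc_add hζ.pow_eq_one]
    ring
  · intro x hx
    simp only [if_neg hx]
  · intro σ hσ
    simp only [if_pos hσ]
    exact hk σ hσ

/-- a Kummer character of a `p`-unit is unramified outside `p` -/
theorem kum_ram (hD : S_D3) {ζ : QB} (hζ : IsPrimitiveRoot ζ p) {β : QB} (hβ : PUnit p (β ^ p))
    {𝓛 : Subgroup (GK s)} (hu : ∀ σ ∈ 𝓛, σ (β ^ p) = β ^ p) {k : GK s → ZMod p}
    (hk : ∀ σ ∈ 𝓛, σ β = zc ζ (k σ) * β) : ∀ σ ∈ 𝓛, Ram p σ → k σ = 0 := by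
  rintro σ hσ ⟨q, _, ι, hq, hσ'⟩
  have h1 := hD p s q ι hq σ hσ' β 1 (by rwa [pow_one]) (by rw [pow_one]; exact hu σ hσ)
  have hβ0 : β ≠ 0 := by
    rintro rfl
    exact hβ.1 (zero_pow hp.out.ne_zero)
  rw [hk σ hσ] at h1
  apply zc_inj hζ
  rw [zc_zero]
  exact mul_right_cancel₀ hβ0 (by rw [h1, one_mul])

end kum

end Pool.Agent.L7h15.SG
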